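import Mathlib

/-!
# Iterated perimeter-maximising triangles need not converge

Let `0 < α < 30°`, `sin α = 5 / 13`. The six points of a circle (of radius `26`) with the arguments
`90° ± α`, `210° ± α`, `330° ± α` are called `A₀, A₁, A₂` (sign `+`) and `B₀, B₁, B₂` (sign `-`). The ellipse
with foci `A₁, B₂` through `A₀` also passes through `B₀`, and the same holds for the ellipse with foci
`A₂, B₁` through `A₀`; the two ellipses have the same tangents at `A₀` and at `B₀`. Hence the Minkowski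
sum `K` of a small disc and a suitable hexagon touches both ellipses from inside at `A₀` and `B₀`. So if
`K` has the symmetry of order three then the vertex `A₀` of `A₁ B₂ A₀` may move to `B₀`, then `B₂` may
move to `A₂`, then `A₁` may move to `B₁`, then `B₀` may move to `A₀`, and so on.
-/

set_option autoImplicit false

open Metric Set Filter Topology
open scoped RealInnerProductSpace Pointwise

namespace Pool.Agent.Results.MP_26b77b_gt.NoConvergence

/-- `K` is a compact convex set of the plane with nonempty interior whose boundary is a differentiable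
curve: at every boundary point `p` there is exactly one supporting line of `K`, that is, exactly one
unit vector `u` such that `K` lies in the half-plane `⟪u, x⟫ ≤ ⟪u, p⟫`. -/
structure IsSmoothBody (K : Set ℂ) : Prop where
  compact : IsCompact K
  convex : Convex ℝ K
  interior : (interior K).Nonempty
  unique_tangent : ∀ p ∈ frontier K, ∃! u : ℂ, ‖u‖ = 1 ∧ ∀ x ∈ K, ⟪u, x⟫ ≤ ⟪u, p⟫

/-- The perimeter of the triangle `X Y Z`. -/
noncomputable def perimeter (X Y Z : ℂ) : ℝ := dist X Y + dist Y Z + dist Z X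

/-- `X, Y, Z` is a sequence of triangles produced by the iteration: it starts with a triangle inscribed
in `C`; for every `k` first `Z k` is replaced by a point `Z (k + 1)` of `C` such that the perimeter of
`X k, Y k, Z (k + 1)` is maximal, then `Y k` is replaced by a point `Y (k + 1)` of `C` such that the
perimeter of `X k, Y (k + 1), Z (k + 1)` is maximal, then `X k` is replaced by a point `X (k + 1)` of `C`
such that the perimeter of `X (k + 1), Y (k + 1), Z (k + 1)` is maximal. -/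
structure IsIteration (C : Set ℂ) (X Y Z : ℕ → ℂ) : Prop where
  triangle : AffineIndependent ℝ ![X 0, Y 0, Z 0]
  X_mem : ∀ k, X k ∈ C
  Y_mem : ∀ k, Y k ∈ C
  Z_mem : ∀ k, Z k ∈ C
  Z_max : ∀ k, ∀ P ∈ C, perimeter (X k) (Y k) P ≤ perimeter (X k) (Y k) (Z (k + 1))
  Y_max : ∀ k, ∀ P ∈ C, perimeter (X k) P (Z (k + 1)) ≤ perimeter (X k) (Y (k + 1)) (Z (k + 1))
  X_max : ∀ k, ∀ P ∈ C, perimeter P (Y (k + 1)) (Z (k + 1)) ≤
    perimeter (X (k + 1)) (Y (k + 1)) (Z (k + 1))

/-! ### Minkowski sums with a disc -/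

/-- The sum of a convex set and a closed disc of positive radius: there is at most one outer normal at
each point. -/
lemma normal_eq {H : Set ℂ} {r : ℝ} (hr : 0 < r) {h b u : ℂ} (hh : h ∈ H) (hb : b ∈ closedBall (0 : ℂ) r)
    (hu : ‖u‖ = 1) (hsup : ∀ x ∈ H + closedBall (0 : ℂ) r, ⟪u, x⟫ ≤ ⟪u, h + b⟫) : b = r • u := by
  have h1 : h + r • u ∈ H + closedBall (0 : ℂ) r := by
    refine add_mem_add hh ?_
    rw [mem_closedBall_zero_iff, norm_smul, hu, mul_one, Real.norm_of_nonneg hr.le]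
  have h2 := hsup _ h1
  rw [inner_add_right, inner_add_right, real_inner_smul_right, real_inner_self_eq_norm_sq, hu] at h2
  have h3 : ‖b‖ ≤ r := mem_closedBall_zero_iff.1 hb
  have h4 : ‖b - r • u‖ ^ 2 ≤ 0 := by
    rw [norm_sub_sq_real, norm_smul, hu, mul_one, Real.norm_of_nonneg hr.le, real_inner_smul_right,
      real_inner_comm]
    have : ‖b‖ ^ 2 ≤ r ^ 2 := by gcongr
    nlinarith
  have h5 : ‖b - r • u‖ = 0 := by
    have := norm_nonneg (b - r • u)
    nlinarith
  exact sub_eq_zero.1 (norm_eq_zero.1 h5)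

/-- Every boundary point of a compact convex set with nonempty interior has an outer unit normal. -/
lemma exists_normal {K : Set ℂ} (hK : IsCompact K) (hc : Convex ℝ K) (hi : (interior K).Nonempty)
    {p : ℂ} (hp : p ∈ frontier K) : ∃ u : ℂ, ‖u‖ = 1 ∧ ∀ x ∈ K, ⟪u, x⟫ ≤ ⟪u, p⟫ := by
  have hp2 : p ∉ interior K := by
    rw [hK.isClosed.frontier_eq] at hp
    exact hp.2
  obtain ⟨f, hf⟩ := geometric_hahn_banach_open_point hc.interior isOpen_interior hp2
  obtain ⟨y, hy⟩ := hi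
  have hcl : closure (interior K) = K := by
    rw [hc.closure_interior_eq_closure_of_nonempty_interior ⟨y, hy⟩, hK.isClosed.closure_eq]
  have hf2 : ∀ x ∈ K, f x ≤ f p := by
    intro x hx
    rw [← hcl] at hx
    have hcl2 : IsClosed {z : ℂ | f z ≤ f p} := isClosed_le f.continuous continuous_const
    exact closure_minimal (fun z hz => (hf z hz).le) hcl2 hx
  set w := (InnerProductSpace.toDual ℝ ℂ).symm f with hw
  have hw2 : ∀ x, ⟪w, x⟫ = f x := fun x => InnerProductSpace.toDual_symm_apply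
  have hw0 : w ≠ 0 := by
    intro h0
    have h1 := hf y hy
    rw [← hw2, ← hw2, h0] at h1
    simp at h1
  have hn : 0 < ‖w‖ := norm_pos_iff.2 hw0
  refine ⟨(‖w‖)⁻¹ • w, ?_, ?_⟩
  · rw [norm_smul, norm_inv, norm_norm, inv_mul_cancel₀ hn.ne']
  · intro x hx
    rw [real_inner_smul_left, real_inner_smul_left, hw2, hw2]
    exact mul_le_mul_of_nonneg_left (hf2 x hx) (inv_nonneg.2 hn.le)

lemma isSmoothBody_add {H : Set ℂ} (hH : IsCompact H) (hc : Convex ℝ H) (hne : H.Nonempty) {r : ℝ}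
    (hr : 0 < r) : IsSmoothBody (H + closedBall (0 : ℂ) r) := by
  have h1 : IsCompact (H + closedBall (0 : ℂ) r) := hH.add (isCompact_closedBall _ _)
  have h2 : Convex ℝ (H + closedBall (0 : ℂ) r) := hc.add (convex_closedBall _ _)
  have h3 : (interior (H + closedBall (0 : ℂ) r)).Nonempty := by
    obtain ⟨a, ha⟩ := hne
    refine ⟨a, ?_⟩
    rw [mem_interior]
    refine ⟨ball a r, ?_, isOpen_ball, mem_ball_self hr⟩
    intro x hx
    refine ⟨a, ha, x - a, ?_, by ring⟩
    rw [mem_closedBall_zero_iff, ← dist_eq_norm]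
    exact (mem_ball.1 hx).le
  refine ⟨h1, h2, h3, ?_⟩
  intro p hp
  obtain ⟨u, hu1, hu2⟩ := exists_normal h1 h2 h3 hp
  refine ⟨u, ⟨hu1, hu2⟩, ?_⟩
  rintro v ⟨hv1, hv2⟩
  have hpK : p ∈ H + closedBall (0 : ℂ) r := h1.isClosed.frontier_subset hp
  obtain ⟨h, hh, b, hb, rfl⟩ := hpK
  have e1 := normal_eq hr hh hb hu1 hu2
  have e2 := normal_eq hr hh hb hv1 hv2
  have e3 : r • v = r • u := by rw [← e1, ← e2]
  exact smul_right_injective ℂ hr.ne' e3

/-- A point of `K` with a supporting line is a boundary point. -/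
lemma mem_frontier_of_supp {K : Set ℂ} {p n : ℂ} (hp : p ∈ K) (hn : n ≠ 0)
    (h : ∀ x ∈ K, ⟪n, x⟫ ≤ ⟪n, p⟫) : p ∈ frontier K := by
  refine ⟨subset_closure hp, ?_⟩
  intro hi
  rw [mem_interior_iff_mem_nhds, Metric.mem_nhds_iff] at hi
  obtain ⟨ε, hε, hb⟩ := hi
  have hn0 : 0 < ‖n‖ := norm_pos_iff.2 hn
  have h1 : p + (ε / (2 * ‖n‖)) • n ∈ K := by
    apply hb
    rw [mem_ball, dist_eq_norm, add_sub_cancel_left, norm_smul, Real.norm_of_nonneg (by positivity)]
    rw [div_mul_eq_mul_div, div_lt_iff₀ (by positivity)]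
    nlinarith
  have h2 := h _ h1
  rw [inner_add_right, real_inner_smul_right, real_inner_self_eq_norm_sq] at h2
  have : 0 < ε / (2 * ‖n‖) * ‖n‖ ^ 2 := by positivity
  linarith

/-! ### The curve -/

/-- Rotation by `120°`. -/
noncomputable def ω : ℂ := ⟨-1 / 2, √3 / 2⟩

lemma sqrt3_sq : √3 * √3 = (3 : ℝ) := Real.mul_self_sqrt (by norm_num)

lemma sqrt3_gt : (1.73 : ℝ) < √3 := by
  rw [Real.lt_sqrt (by norm_num)]; norm_num

lemma sqrt3_lt : √3 < (1.74 : ℝ) := by
  rw [Real.sqrt_lt' (by norm_num)]; norm_num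

lemma sqrt26_sq : √26 * √26 = (26 : ℝ) := Real.mul_self_sqrt (by norm_num)

lemma sqrt26_gt : (5 : ℝ) < √26 := by
  rw [Real.lt_sqrt (by norm_num)]; norm_num

lemma sqrt26_lt : √26 < (5.1 : ℝ) := by
  rw [Real.sqrt_lt' (by norm_num)]; norm_num

noncomputable def A0 : ℂ := ⟨-10, 24⟩
noncomputable def A1 : ℂ := ⟨5 - 12 * √3, -12 - 5 * √3⟩
noncomputable def A2 : ℂ := ⟨5 + 12 * √3, -12 + 5 * √3⟩
noncomputable def B0 : ℂ := ⟨10, 24⟩
noncomputable def B1 : ℂ := ⟨-5 - 12 * √3, -12 + 5 * √3⟩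
noncomputable def B2 : ℂ := ⟨-5 + 12 * √3, -12 - 5 * √3⟩

/-- Normal vectors at `A0` and `B0`. -/
noncomputable def nA : ℂ := ⟨-1, 5⟩
noncomputable def nB : ℂ := ⟨1, 5⟩

/-- The vertices of the hexagon. -/
noncomputable def a0 : ℂ := ⟨-49 / 5, 23⟩
noncomputable def b0 : ℂ := ⟨49 / 5, 23⟩

lemma ω_mul (z : ℂ) : ω * z = ⟨-z.re / 2 - √3 / 2 * z.im, √3 / 2 * z.re - z.im / 2⟩ := by
  apply Complex.ext
  · simp [ω]; ring
  · simp [ω]; ring

lemma ωA0 : ω * A0 = A1 := by
  rw [ω_mul]; apply Complex.ext <;> simp [A0, A1] <;> ring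

lemma ωA1 : ω * A1 = A2 := by
  rw [ω_mul]; apply Complex.ext <;> simp [A1, A2] <;> nlinarith [sqrt3_sq]

lemma ωA2 : ω * A2 = A0 := by
  rw [ω_mul]; apply Complex.ext <;> simp [A0, A2] <;> nlinarith [sqrt3_sq]

lemma ωB0 : ω * B0 = B1 := by
  rw [ω_mul]; apply Complex.ext <;> simp [B0, B1] <;> ring

lemma ωB1 : ω * B1 = B2 := by
  rw [ω_mul]; apply Complex.ext <;> simp [B1, B2] <;> nlinarith [sqrt3_sq]

lemma ωB2 : ω * B2 = B0 := by
  rw [ω_mul]; apply Complex.ext <;> simp [B0, B2] <;> nlinarith [sqrt3_sq]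

lemma ω_cube : ω ^ 3 = 1 := by
  have h : A0 ≠ 0 := by
    intro h
    have := congrArg Complex.re h
    simp [A0] at this
  have h1 : ω ^ 3 * A0 = 1 * A0 := by
    rw [one_mul]
    calc ω ^ 3 * A0 = ω * (ω * (ω * A0)) := by ring
      _ = A0 := by rw [ωA0, ωA1, ωA2]
  exact mul_right_cancel₀ h h1

lemma norm_ω : ‖ω‖ = 1 := by
  have h1 : ‖ω‖ ^ 3 = 1 := by rw [← norm_pow, ω_cube, norm_one]
  exact (pow_eq_one_iff_of_nonneg (norm_nonneg _) (by norm_num)).1 h1

/-- The vertices of the hexagon. -/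
noncomputable def V : Set ℂ := {a0, ω * a0, ω ^ 2 * a0, b0, ω * b0, ω ^ 2 * b0}

/-- The convex set. -/
noncomputable def K : Set ℂ := convexHull ℝ V + closedBall (0 : ℂ) (√26 / 5)

lemma V_finite : V.Finite := by
  unfold V
  exact Set.toFinite _

lemma isSmoothBody_K : IsSmoothBody K := by
  refine isSmoothBody_add (V_finite.isCompact_convexHull ℝ) (convex_convexHull _ _) ?_ (by positivity)
  exact ⟨a0, subset_convexHull _ _ (by simp [V])⟩

lemma ω_mem_V {z : ℂ} (hz : z ∈ V) : ω * z ∈ V := by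
  have h3 := ω_cube
  have e : ∀ c : ℂ, ω * (ω ^ 2 * c) = c := by
    intro c
    rw [← mul_assoc, ← pow_succ', h3, one_mul]
  have e2 : ∀ c : ℂ, ω * (ω * c) = ω ^ 2 * c := by intro c; ring
  simp only [V, mem_insert_iff, mem_singleton_iff] at hz ⊢
  rcases hz with rfl | rfl | rfl | rfl | rfl | rfl
  · simp
  · simp [e2]
  · simp [e]
  · simp
  · simp [e2]
  · simp [e]

lemma ω_mem_K {z : ℂ} (hz : z ∈ K) : ω * z ∈ K := by
  obtain ⟨h, hh, b, hb, rfl⟩ := hz
  rw [mul_add]
  refine add_mem_add ?_ ?_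
  · have h1 : (LinearMap.mulLeft ℝ ω) '' (convexHull ℝ V) = convexHull ℝ ((LinearMap.mulLeft ℝ ω) '' V) :=
      (LinearMap.mulLeft ℝ ω).image_convexHull V
    have h2 : ω * h ∈ (LinearMap.mulLeft ℝ ω) '' (convexHull ℝ V) := ⟨h, hh, rfl⟩
    rw [h1] at h2
    refine convexHull_mono ?_ h2
    rintro _ ⟨v, hv, rfl⟩
    exact ω_mem_V hv
  · rw [mem_closedBall_zero_iff] at hb ⊢
    rw [norm_mul, norm_ω, one_mul]
    exact hb

/-- A convex condition on `K` which has to be checked only for the six discs. -/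
lemma K_subset {f : ℂ → ℝ} (hf : ConvexOn ℝ univ f) {S : ℝ}
    (h : ∀ v ∈ V, ∀ b ∈ closedBall (0 : ℂ) (√26 / 5), f (v + b) ≤ S) : ∀ z ∈ K, f z ≤ S := by
  rintro _ ⟨c, hc, b, hb, rfl⟩
  have hconv : Convex ℝ {c : ℂ | f (c + b) ≤ S} := by
    intro x hx y hy s t hs ht hst
    have h1 := hf.2 (mem_univ (x + b)) (mem_univ (y + b)) hs ht hst
    have h2 : s • (x + b) + t • (y + b) = s • x + t • y + b := by
      rw [smul_add, smul_add]
      have : s • b + t • b = b := by rw [← add_smul, hst, one_smul]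
      calc s • x + s • b + (t • y + t • b) = s • x + t • y + (s • b + t • b) := by ring
        _ = _ := by rw [this]
    rw [h2] at h1
    simp only [Set.mem_ofPred_eq] at hx hy ⊢
    calc f (s • x + t • y + b) ≤ s • f (x + b) + t • f (y + b) := h1
      _ ≤ s • S + t • S := by
        simp only [smul_eq_mul]; gcongr
      _ = S := by rw [← add_smul, hst, one_smul]
  exact convexHull_min (fun v hv => h v hv b hb) hconv hc

/-- `‖z‖` in coordinates. -/
lemma norm_le_of_sq {z : ℂ} {d : ℝ} (hd : 0 ≤ d) (h : z.re ^ 2 + z.im ^ 2 ≤ d ^ 2) : ‖z‖ ≤ d := by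
  have : ‖z‖ ^ 2 ≤ d ^ 2 := by
    rw [← Complex.normSq_eq_norm_sq, Complex.normSq_apply]; nlinarith
  exact (sq_le_sq₀ (norm_nonneg _) hd).1 this

lemma norm_eq_of_sq {z : ℂ} {d : ℝ} (hd : 0 ≤ d) (h : z.re ^ 2 + z.im ^ 2 = d ^ 2) : ‖z‖ = d := by
  have : ‖z‖ ^ 2 = d ^ 2 := by
    rw [← Complex.normSq_eq_norm_sq, Complex.normSq_apply]; nlinarith
  exact (sq_eq_sq₀ (norm_nonneg _) hd).1 this

lemma norm_sq_eq (z : ℂ) : ‖z‖ ^ 2 = z.re ^ 2 + z.im ^ 2 := by
  rw [← Complex.normSq_eq_norm_sq, Complex.normSq_apply]; ring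

/-- Mean inequality. -/
lemma norm_le_mean (z : ℂ) {d : ℝ} (hd : 0 < d) : ‖z‖ ≤ (d ^ 2 + (z.re ^ 2 + z.im ^ 2)) / (2 * d) := by
  rw [le_div_iff₀ (by positivity), ← norm_sq_eq]
  nlinarith [sq_nonneg (‖z‖ - d)]

/-- The disc with radius `√26 / 5` which touches the ellipse from inside at `Z`. -/
lemma tangent_disc {Z F G N P : ℂ} {d e k : ℝ} (hd : 0 < d) (he : 0 < e)
    (hF : (Z - F).re ^ 2 + (Z - F).im ^ 2 = d ^ 2) (hG : (Z - G).re ^ 2 + (Z - G).im ^ 2 = e ^ 2)
    (hN : N.re ^ 2 + N.im ^ 2 = 26)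
    (hx : e * (Z - F).re + d * (Z - G).re = k * N.re) (hy : e * (Z - F).im + d * (Z - G).im = k * N.im)
    (hk : d + e ≤ 5 * k) (hP : ‖P‖ ≤ √26 / 5) :
    ‖Z - (1 / 5 : ℝ) • N + P - F‖ + ‖Z - (1 / 5 : ℝ) • N + P - G‖ ≤ d + e := by
  have h1 := norm_le_mean (Z - (1 / 5 : ℝ) • N + P - F) hd
  have h2 := norm_le_mean (Z - (1 / 5 : ℝ) • N + P - G) he
  have h3 : P.re ^ 2 + P.im ^ 2 ≤ 26 / 25 := by
    rw [← norm_sq_eq]
    calc ‖P‖ ^ 2 ≤ (√26 / 5) ^ 2 := by gcongr
      _ = 26 / 25 := by rw [div_pow, Real.sq_sqrt (by norm_num)]; norm_num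
  set vx := P.re - N.re / 5 with hvx
  set vy := P.im - N.im / 5 with hvy
  have h4 : vx ^ 2 + vy ^ 2 + 2 / 5 * (vx * N.re + vy * N.im) ≤ 0 := by
    rw [hvx, hvy]; nlinarith
  have e1 : (Z - (1 / 5 : ℝ) • N + P - F).re = (Z - F).re + vx := by
    simp [hvx]; ring
  have e2 : (Z - (1 / 5 : ℝ) • N + P - F).im = (Z - F).im + vy := by
    simp [hvy]; ring
  have e3 : (Z - (1 / 5 : ℝ) • N + P - G).re = (Z - G).re + vx := by
    simp [hvx]; ring
  have e4 : (Z - (1 / 5 : ℝ) • N + P - G).im = (Z - G).im + vy := by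
    simp [hvy]; ring
  rw [e1, e2] at h1
  rw [e3, e4] at h2
  refine (add_le_add h1 h2).trans ?_
  rw [div_add_div _ _ (by positivity) (by positivity), div_le_iff₀ (by positivity)]
  generalize (Z - F).re = fx at *
  generalize (Z - F).im = fy at *
  generalize (Z - G).re = gx at *
  generalize (Z - G).im = gy at *
  generalize N.re = nx at *
  generalize N.im = ny at *
  have key : (d ^ 2 + ((fx + vx) ^ 2 + (fy + vy) ^ 2)) * (2 * e) +
      2 * d * (e ^ 2 + ((gx + vx) ^ 2 + (gy + vy) ^ 2)) - (d + e) * (2 * d * (2 * e))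
      = 2 * (d + e) * (vx ^ 2 + vy ^ 2) + 4 * k * (vx * nx + vy * ny) := by
    linear_combination (2 * e) * hF + (2 * d) * hG + (4 * vx) * hx + (4 * vy) * hy
  have h5 : 2 * (d + e) * (vx ^ 2 + vy ^ 2) ≤ 2 * (5 * k) * (vx ^ 2 + vy ^ 2) := by
    have : 0 ≤ vx ^ 2 + vy ^ 2 := by positivity
    nlinarith
  have h6 : 0 ≤ k := by linarith
  nlinarith

lemma near_disc {Q F P : ℂ} {N : ℂ} {d : ℝ} (hd : 0 ≤ d)
    (hF : (Q - F).re ^ 2 + (Q - F).im ^ 2 ≤ d ^ 2)
    (hN : N.re ^ 2 + N.im ^ 2 = 26) (hP : ‖P‖ ≤ √26 / 5) :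
    ‖Q - (1 / 5 : ℝ) • N + P - F‖ ≤ d + 2.04 := by
  have h1 : Q - (1 / 5 : ℝ) • N + P - F = (Q - F) + (-((1 / 5 : ℝ) • N)) + P := by ring
  have h2 : ‖N‖ ≤ 5.1 := norm_le_of_sq (by norm_num) (by rw [hN]; norm_num)
  have h3 : ‖(1 / 5 : ℝ) • N‖ ≤ 1.02 := by
    rw [norm_smul]
    norm_num
    linarith
  have h4 := sqrt26_lt
  have h5 : ‖Q - F‖ ≤ d := norm_le_of_sq hd hF
  rw [h1]
  calc ‖(Q - F) + (-((1 / 5 : ℝ) • N)) + P‖ ≤ ‖Q - F‖ + ‖-((1 / 5 : ℝ) • N)‖ + ‖P‖ := norm_add₃_le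
    _ ≤ d + 2.04 := by rw [norm_neg]; linarith

/-- A vertex of the hexagon. -/
lemma vert (c : ℂ) {v Q n N : ℂ} (h0 : v = Q - (1 / 5 : ℝ) • n) (hN : N = c * n) :
    c * v = c * Q - (1 / 5 : ℝ) • N := by
  rw [h0, hN, mul_sub, mul_smul_comm]

lemma a0_eq : a0 = A0 - (1 / 5 : ℝ) • nA := by
  apply Complex.ext <;> simp [a0, A0, nA] <;> norm_num

lemma b0_eq : b0 = B0 - (1 / 5 : ℝ) • nB := by
  apply Complex.ext <;> simp [b0, B0, nB] <;> norm_num

lemma nA_sq : nA.re ^ 2 + nA.im ^ 2 = 26 := by simp [nA]; norm_num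

lemma nB_sq : nB.re ^ 2 + nB.im ^ 2 = 26 := by simp [nB]; norm_num

lemma ω_sq_norm {n : ℂ} (h : n.re ^ 2 + n.im ^ 2 = 26) : (ω * n).re ^ 2 + (ω * n).im ^ 2 = 26 := by
  rw [← norm_sq_eq] at h ⊢
  rw [norm_mul, norm_ω, one_mul, h]

/-- The six vertices of the hexagon. -/
lemma V_cases {v : ℂ} (hv : v ∈ V) : v = A0 - (1 / 5 : ℝ) • nA ∨ v = B0 - (1 / 5 : ℝ) • nB ∨
    ∃ N : ℂ, N.re ^ 2 + N.im ^ 2 = 26 ∧ (v = A1 - (1 / 5 : ℝ) • N ∨ v = A2 - (1 / 5 : ℝ) • N ∨
      v = B1 - (1 / 5 : ℝ) • N ∨ v = B2 - (1 / 5 : ℝ) • N) := by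
  simp only [V, mem_insert_iff, mem_singleton_iff] at hv
  rcases hv with rfl | rfl | rfl | rfl | rfl | rfl
  · left; exact a0_eq
  · right; right
    refine ⟨ω * nA, ω_sq_norm nA_sq, Or.inl ?_⟩
    rw [← ωA0]
    exact vert _ a0_eq rfl
  · right; right
    refine ⟨ω * (ω * nA), ω_sq_norm (ω_sq_norm nA_sq), Or.inr (Or.inl ?_)⟩
    rw [← ωA1, ← ωA0, pow_two, mul_assoc]
    exact vert _ (vert _ a0_eq rfl) rfl
  · right; left; exact b0_eq
  · right; right
    refine ⟨ω * nB, ω_sq_norm nB_sq, Or.inr (Or.inr (Or.inl ?_))⟩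
    rw [← ωB0]
    exact vert _ b0_eq rfl
  · right; right
    refine ⟨ω * (ω * nB), ω_sq_norm (ω_sq_norm nB_sq), Or.inr (Or.inr (Or.inr ?_))⟩
    rw [← ωB1, ← ωB0, pow_two, mul_assoc]
    exact vert _ (vert _ b0_eq rfl) rfl

lemma est_plus : ∀ v ∈ V, ∀ b ∈ closedBall (0 : ℂ) (√26 / 5),
    ‖v + b - A1‖ + ‖v + b - B2‖ ≤ 50 * √3 + 10 := by
  intro v hv b hb
  rw [mem_closedBall_zero_iff] at hb
  have s1 := sqrt3_sq
  have s2 := sqrt3_gt
  have s3 := sqrt3_lt
  rcases V_cases hv with rfl | rfl | ⟨N, hN, rfl | rfl | rfl | rfl⟩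
  · have := tangent_disc (Z := A0) (F := A1) (G := B2) (N := nA) (P := b) (d := 26 * √3)
      (e := 24 * √3 + 10) (k := 222 + 370 * √3) (by positivity) (by positivity)
      (by simp [A0, A1]; nlinarith) (by simp [A0, B2]; nlinarith) nA_sq
      (by simp [A0, A1, B2, nA]; nlinarith) (by simp [A0, A1, B2, nA]; nlinarith) (by linarith) hb
    linarith
  · have := tangent_disc (Z := B0) (F := A1) (G := B2) (N := nB) (P := b) (d := 24 * √3 + 10)
      (e := 26 * √3) (k := 222 + 370 * √3) (by positivity) (by positivity)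
      (by simp [B0, A1]; nlinarith) (by simp [B0, B2]; nlinarith) nB_sq
      (by simp [B0, A1, B2, nB]; nlinarith) (by simp [B0, A1, B2, nB]; nlinarith) (by linarith) hb
    linarith
  · have h1 := near_disc (Q := A1) (F := A1) (P := b) (N := N) (d := 0) le_rfl (by simp) hN hb
    have h2 := near_disc (Q := A1) (F := B2) (P := b) (N := N) (d := 24 * √3 - 10) (by linarith)
      (by simp [A1, B2]; nlinarith) hN hb
    linarith
  · have h1 := near_disc (Q := A2) (F := A1) (P := b) (N := N) (d := 26 * √3) (by positivity)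
      (by simp [A1, A2]; nlinarith) hN hb
    have h2 := near_disc (Q := A2) (F := B2) (P := b) (N := N) (d := 20) (by norm_num)
      (by simp [A2, B2]; nlinarith) hN hb
    linarith
  · have h1 := near_disc (Q := B1) (F := A1) (P := b) (N := N) (d := 20) (by norm_num)
      (by simp [A1, B1]; nlinarith) hN hb
    have h2 := near_disc (Q := B1) (F := B2) (P := b) (N := N) (d := 26 * √3) (by positivity)
      (by simp [B1, B2]; nlinarith) hN hb
    linarith
  · have h1 := near_disc (Q := B2) (F := A1) (P := b) (N := N) (d := 24 * √3 - 10) (by linarith)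
      (by simp [A1, B2]; nlinarith) hN hb
    have h2 := near_disc (Q := B2) (F := B2) (P := b) (N := N) (d := 0) le_rfl (by simp) hN hb
    linarith

lemma est_minus : ∀ v ∈ V, ∀ b ∈ closedBall (0 : ℂ) (√26 / 5),
    ‖v + b - A2‖ + ‖v + b - B1‖ ≤ 50 * √3 - 10 := by
  intro v hv b hb
  rw [mem_closedBall_zero_iff] at hb
  have s1 := sqrt3_sq
  have s2 := sqrt3_gt
  have s3 := sqrt3_lt
  rcases V_cases hv with rfl | rfl | ⟨N, hN, rfl | rfl | rfl | rfl⟩
  · have := tangent_disc (Z := A0) (F := A2) (G := B1) (N := nA) (P := b) (d := 26 * √3)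
      (e := 24 * √3 - 10) (k := 370 * √3 - 222) (by positivity) (by linarith)
      (by simp [A0, A2]; nlinarith) (by simp [A0, B1]; nlinarith) nA_sq
      (by simp [A0, A2, B1, nA]; nlinarith) (by simp [A0, A2, B1, nA]; nlinarith) (by linarith) hb
    linarith
  · have := tangent_disc (Z := B0) (F := A2) (G := B1) (N := nB) (P := b) (d := 24 * √3 - 10)
      (e := 26 * √3) (k := 370 * √3 - 222) (by linarith) (by positivity)
      (by simp [B0, A2]; nlinarith) (by simp [B0, B1]; nlinarith) nB_sq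
      (by simp [B0, A2, B1, nB]; nlinarith) (by simp [B0, A2, B1, nB]; nlinarith) (by linarith) hb
    linarith
  · have h1 := near_disc (Q := A1) (F := A2) (P := b) (N := N) (d := 26 * √3) (by positivity)
      (by simp [A1, A2]; nlinarith) hN hb
    have h2 := near_disc (Q := A1) (F := B1) (P := b) (N := N) (d := 20) (by norm_num)
      (by simp [A1, B1]; nlinarith) hN hb
    linarith
  · have h1 := near_disc (Q := A2) (F := A2) (P := b) (N := N) (d := 0) le_rfl (by simp) hN hb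
    have h2 := near_disc (Q := A2) (F := B1) (P := b) (N := N) (d := 24 * √3 + 10) (by positivity)
      (by simp [A2, B1]; nlinarith) hN hb
    linarith
  · have h1 := near_disc (Q := B1) (F := A2) (P := b) (N := N) (d := 24 * √3 + 10) (by positivity)
      (by simp [A2, B1]; nlinarith) hN hb
    have h2 := near_disc (Q := B1) (F := B1) (P := b) (N := N) (d := 0) le_rfl (by simp) hN hb
    linarith
  · have h1 := near_disc (Q := B2) (F := A2) (P := b) (N := N) (d := 20) (by norm_num)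
      (by simp [A2, B2]; nlinarith) hN hb
    have h2 := near_disc (Q := B2) (F := B1) (P := b) (N := N) (d := 26 * √3) (by positivity)
      (by simp [B1, B2]; nlinarith) hN hb
    linarith

lemma convexOn_sum (F G : ℂ) : ConvexOn ℝ univ fun z : ℂ => ‖z - F‖ + ‖z - G‖ := by
  have h1 := (convexOn_univ_dist (E := ℂ) F).add (convexOn_univ_dist (E := ℂ) G)
  simp only [dist_eq_norm] at h1
  exact h1

lemma K_plus : ∀ z ∈ K, ‖z - A1‖ + ‖z - B2‖ ≤ 50 * √3 + 10 :=
  K_subset (convexOn_sum _ _) est_plus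

lemma K_minus : ∀ z ∈ K, ‖z - A2‖ + ‖z - B1‖ ≤ 50 * √3 - 10 :=
  K_subset (convexOn_sum _ _) est_minus

/-- Rotation of an estimate. -/
lemma rot {F G : ℂ} {S : ℝ} (h : ∀ z ∈ K, ‖z - F‖ + ‖z - G‖ ≤ S) :
    ∀ z ∈ K, ‖z - ω * F‖ + ‖z - ω * G‖ ≤ S := by
  intro z hz
  have h1 := h (ω * (ω * z)) (ω_mem_K (ω_mem_K hz))
  have h2 : z = ω * (ω * (ω * z)) := by
    calc z = ω ^ 3 * z := by rw [ω_cube, one_mul]
      _ = _ := by ring
  have h3 : ∀ W : ℂ, ‖z - ω * W‖ = ‖ω * (ω * z) - W‖ := by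
    intro W
    have : z - ω * W = ω * (ω * (ω * z) - W) := by
      calc z - ω * W = ω * (ω * (ω * z)) - ω * W := by rw [← h2]
        _ = _ := by ring
    rw [this, norm_mul, norm_ω, one_mul]
  rw [h3, h3]
  exact h1

/-! ### Boundary points -/

lemma inner_ω (a b : ℂ) : ⟪ω * a, ω * b⟫ = ⟪a, b⟫ := by
  rw [real_inner_eq_norm_add_mul_self_sub_norm_mul_self_sub_norm_mul_self_div_two,
    real_inner_eq_norm_add_mul_self_sub_norm_mul_self_sub_norm_mul_self_div_two a b, ← mul_add,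
    norm_mul, norm_mul, norm_mul, norm_ω, one_mul, one_mul, one_mul]

/-- `n` is a normal vector of a supporting line at `p`. -/
structure Supp (p n : ℂ) : Prop where
  mem : p ∈ K
  ne : n ≠ 0
  le : ∀ x ∈ K, ⟪n, x⟫ ≤ ⟪n, p⟫

lemma Supp.mem_frontier {p n : ℂ} (h : Supp p n) : p ∈ frontier K :=
  mem_frontier_of_supp h.mem h.ne h.le

lemma Supp.rot {p n : ℂ} (h : Supp p n) : Supp (ω * p) (ω * n) := by
  have hω : ω ≠ 0 := by
    intro h0
    have := norm_ω
    rw [h0, norm_zero] at this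
    norm_num at this
  refine ⟨ω_mem_K h.mem, mul_ne_zero hω h.ne, ?_⟩
  intro x hx
  have h1 := h.le (ω * (ω * x)) (ω_mem_K (ω_mem_K hx))
  have h2 : x = ω * (ω * (ω * x)) := by
    calc x = ω ^ 3 * x := by rw [ω_cube, one_mul]
      _ = _ := by ring
  rw [h2, inner_ω, inner_ω]
  exact h1

lemma convexOn_inner (n : ℂ) : ConvexOn ℝ univ fun z : ℂ => ⟪n, z⟫ := by
  refine ⟨convex_univ, ?_⟩
  intro x _ y _ a b _ _ _
  change ⟪n, a • x + b • y⟫ ≤ a • ⟪n, x⟫ + b • ⟪n, y⟫
  rw [inner_add_right, real_inner_smul_right, real_inner_smul_right]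
  rfl

lemma inner_eq (n z : ℂ) : ⟪n, z⟫ = n.re * z.re + n.im * z.im := by
  rw [Complex.inner]
  simp
  ring

lemma mem_K {v p : ℂ} (hv : v ∈ V) (h : ‖p - v‖ ≤ √26 / 5) : p ∈ K :=
  ⟨v, subset_convexHull _ _ hv, p - v, mem_closedBall_zero_iff.2 h, by ring⟩

lemma supp_aux {n : ℂ} (hn : n.re ^ 2 + n.im ^ 2 = 26) {Q : ℂ} {S : ℝ} (hS : ⟪n, Q⟫ + 10.5 ≤ S)
    {N b : ℂ} (hN : N.re ^ 2 + N.im ^ 2 = 26) (hb : ‖b‖ ≤ √26 / 5) :
    ⟪n, Q - (1 / 5 : ℝ) • N + b⟫ ≤ S := by
  have h1 : ‖n‖ ≤ 5.1 := norm_le_of_sq (by norm_num) (by rw [hn]; norm_num)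
  have h2 : ‖N‖ ≤ 5.1 := norm_le_of_sq (by norm_num) (by rw [hN]; norm_num)
  have h3 : ‖b‖ ≤ 1.02 := by
    have := sqrt26_lt
    linarith
  have h4 := abs_le.1 (abs_real_inner_le_norm n N)
  have h5 := abs_le.1 (abs_real_inner_le_norm n b)
  have h6 : ‖n‖ * ‖N‖ ≤ 5.1 * 5.1 := by gcongr
  have h7 : ‖n‖ * ‖b‖ ≤ 5.1 * 1.02 := by gcongr
  rw [inner_add_right, inner_sub_right, real_inner_smul_right]
  linarith [h4.1, h5.2]

lemma supp_A0 : Supp A0 nA := by
  refine ⟨?_, ?_, ?_⟩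
  · refine mem_K (v := a0) (by simp [V]) ?_
    refine norm_le_of_sq (by positivity) ?_
    rw [div_pow, Real.sq_sqrt (by norm_num)]
    simp [A0, a0]
    norm_num
  · intro h
    have := congrArg Complex.re h
    simp [nA] at this
  · refine K_subset (convexOn_inner nA) ?_
    intro v hv b hb
    rw [mem_closedBall_zero_iff] at hb
    have s2 := sqrt3_gt
    have s3 := sqrt3_lt
    have h0 : ⟪nA, A0⟫ = 130 := by rw [inner_eq]; simp [nA, A0]; norm_num
    rw [h0]
    have hnb : ⟪nA, b⟫ ≤ 26 / 5 := by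
      have h1 : ‖nA‖ = √26 := norm_eq_of_sq (by positivity) (by rw [nA_sq, Real.sq_sqrt (by norm_num)])
      calc ⟪nA, b⟫ ≤ ‖nA‖ * ‖b‖ := real_inner_le_norm _ _
        _ ≤ √26 * (√26 / 5) := by rw [h1]; gcongr
        _ = 26 / 5 := by rw [← mul_div_assoc, sqrt26_sq]
    rcases V_cases hv with rfl | rfl | ⟨N, hN, rfl | rfl | rfl | rfl⟩
    · rw [inner_add_right]
      have : ⟪nA, A0 - (1 / 5 : ℝ) • nA⟫ = 130 - 26 / 5 := by
        rw [inner_sub_right, h0, real_inner_smul_right, real_inner_self_eq_norm_sq, norm_sq_eq, nA_sq]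
        norm_num
      linarith
    · refine supp_aux nA_sq ?_ nB_sq hb
      rw [inner_eq]; simp [nA, B0]; norm_num
    · refine supp_aux nA_sq ?_ hN hb
      rw [inner_eq]; simp [nA, A1]; linarith
    · refine supp_aux nA_sq ?_ hN hb
      rw [inner_eq]; simp [nA, A2]; linarith
    · refine supp_aux nA_sq ?_ hN hb
      rw [inner_eq]; simp [nA, B1]; linarith
    · refine supp_aux nA_sq ?_ hN hb
      rw [inner_eq]; simp [nA, B2]; linarith

lemma supp_B0 : Supp B0 nB := by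
  refine ⟨?_, ?_, ?_⟩
  · refine mem_K (v := b0) (by simp [V]) ?_
    refine norm_le_of_sq (by positivity) ?_
    rw [div_pow, Real.sq_sqrt (by norm_num)]
    simp [B0, b0]
    norm_num
  · intro h
    have := congrArg Complex.re h
    simp [nB] at this
  · refine K_subset (convexOn_inner nB) ?_
    intro v hv b hb
    rw [mem_closedBall_zero_iff] at hb
    have s2 := sqrt3_gt
    have s3 := sqrt3_lt
    have h0 : ⟪nB, B0⟫ = 130 := by rw [inner_eq]; simp [nB, B0]; norm_num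
    rw [h0]
    have hnb : ⟪nB, b⟫ ≤ 26 / 5 := by
      have h1 : ‖nB‖ = √26 := norm_eq_of_sq (by positivity) (by rw [nB_sq, Real.sq_sqrt (by norm_num)])
      calc ⟪nB, b⟫ ≤ ‖nB‖ * ‖b‖ := real_inner_le_norm _ _
        _ ≤ √26 * (√26 / 5) := by rw [h1]; gcongr
        _ = 26 / 5 := by rw [← mul_div_assoc, sqrt26_sq]
    rcases V_cases hv with rfl | rfl | ⟨N, hN, rfl | rfl | rfl | rfl⟩
    · refine supp_aux nB_sq ?_ nA_sq hb
      rw [inner_eq]; simp [nB, A0]; norm_num
    · rw [inner_add_right]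
      have : ⟪nB, B0 - (1 / 5 : ℝ) • nB⟫ = 130 - 26 / 5 := by
        rw [inner_sub_right, h0, real_inner_smul_right, real_inner_self_eq_norm_sq, norm_sq_eq, nB_sq]
        norm_num
      linarith
    · refine supp_aux nB_sq ?_ hN hb
      rw [inner_eq]; simp [nB, A1]; linarith
    · refine supp_aux nB_sq ?_ hN hb
      rw [inner_eq]; simp [nB, A2]; linarith
    · refine supp_aux nB_sq ?_ hN hb
      rw [inner_eq]; simp [nB, B1]; linarith
    · refine supp_aux nB_sq ?_ hN hb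
      rw [inner_eq]; simp [nB, B2]; linarith

lemma A0_mem : A0 ∈ frontier K := supp_A0.mem_frontier
lemma A1_mem : A1 ∈ frontier K := by rw [← ωA0]; exact supp_A0.rot.mem_frontier
lemma A2_mem : A2 ∈ frontier K := by rw [← ωA1, ← ωA0]; exact supp_A0.rot.rot.mem_frontier
lemma B0_mem : B0 ∈ frontier K := supp_B0.mem_frontier
lemma B1_mem : B1 ∈ frontier K := by rw [← ωB0]; exact supp_B0.rot.mem_frontier
lemma B2_mem : B2 ∈ frontier K := by rw [← ωB1, ← ωB0]; exact supp_B0.rot.rot.mem_frontier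

/-! ### The six moves -/

/-- `Z` maximises the sum of the distances to `F` and `G`. -/
def IsBest (F G Z : ℂ) : Prop :=
  ∀ P ∈ frontier K, dist P F + dist P G ≤ dist Z F + dist Z G

lemma isBest {F G Z : ℂ} {S d e : ℝ} (h : ∀ z ∈ K, ‖z - F‖ + ‖z - G‖ ≤ S) (hd : 0 ≤ d) (he : 0 ≤ e)
    (hF : (Z - F).re ^ 2 + (Z - F).im ^ 2 = d ^ 2) (hG : (Z - G).re ^ 2 + (Z - G).im ^ 2 = e ^ 2)
    (hS : d + e = S) : IsBest F G Z := by
  intro P hP
  rw [dist_eq_norm Z F, dist_eq_norm Z G, norm_eq_of_sq hd hF, norm_eq_of_sq he hG, hS, dist_eq_norm,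
    dist_eq_norm]
  exact h P (isSmoothBody_K.compact.isClosed.frontier_subset hP)

lemma sq3' : (24 * √3 - 10 : ℝ) ≥ 0 := by linarith [sqrt3_gt]

lemma best1 : IsBest A1 B2 B0 :=
  isBest K_plus (d := 24 * √3 + 10) (e := 26 * √3) (by positivity) (by positivity)
    (by simp [B0, A1]; nlinarith [sqrt3_sq]) (by simp [B0, B2]; nlinarith [sqrt3_sq]) (by ring)

lemma best2 : IsBest A1 B0 A2 := by
  have h := rot (rot K_minus)
  rw [ωA2, ωA0, ωB1, ωB2] at h
  exact isBest h (d := 26 * √3) (e := 24 * √3 - 10) (by positivity) sq3'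
    (by simp [A1, A2]; nlinarith [sqrt3_sq]) (by simp [B0, A2]; nlinarith [sqrt3_sq]) (by ring)

lemma best3 : IsBest A2 B0 B1 := by
  have h := rot K_plus
  rw [ωA1, ωB2] at h
  exact isBest h (d := 24 * √3 + 10) (e := 26 * √3) (by positivity) (by positivity)
    (by simp [B1, A2]; nlinarith [sqrt3_sq]) (by simp [B0, B1]; nlinarith [sqrt3_sq]) (by ring)

lemma best4 : IsBest A2 B1 A0 :=
  isBest K_minus (d := 26 * √3) (e := 24 * √3 - 10) (by positivity) sq3'
    (by simp [A0, A2]; nlinarith [sqrt3_sq]) (by simp [A0, B1]; nlinarith [sqrt3_sq]) (by ring)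

lemma best5 : IsBest A0 B1 B2 := by
  have h := rot (rot K_plus)
  rw [ωA1, ωA2, ωB2, ωB0] at h
  exact isBest h (d := 24 * √3 + 10) (e := 26 * √3) (by positivity) (by positivity)
    (by simp [A0, B2]; nlinarith [sqrt3_sq]) (by simp [B1, B2]; nlinarith [sqrt3_sq]) (by ring)

lemma best6 : IsBest A0 B2 A1 := by
  have h := rot K_minus
  rw [ωA2, ωB1] at h
  exact isBest h (d := 26 * √3) (e := 24 * √3 - 10) (by positivity) sq3'
    (by simp [A0, A1]; nlinarith [sqrt3_sq]) (by simp [A1, B2]; nlinarith [sqrt3_sq]) (by ring)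

/-- Alternating sequence. -/
noncomputable def alt (a b : ℂ) (k : ℕ) : ℂ := if Even k then a else b

lemma alt_not_tendsto {a b : ℂ} (hab : a ≠ b) : ¬ ∃ L, Tendsto (alt a b) atTop (𝓝 L) := by
  rintro ⟨L, hL⟩
  have h1 : Tendsto (fun k => alt a b (2 * k)) atTop (𝓝 L) :=
    hL.comp (tendsto_id.const_mul_atTop' (by norm_num))
  have h2 : Tendsto (fun k => alt a b (2 * k + 1)) atTop (𝓝 L) :=
    hL.comp ((tendsto_add_atTop_nat 1).comp (tendsto_id.const_mul_atTop' (by norm_num)))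
  have e1 : (fun k => alt a b (2 * k)) = fun _ => a := by
    funext k; simp [alt]
  have e2 : (fun k => alt a b (2 * k + 1)) = fun _ => b := by
    funext k
    have : ¬ Even (2 * k + 1) := by
      rw [Nat.not_even_iff_odd]; exact ⟨k, rfl⟩
    simp [alt, this]
  rw [e1] at h1
  rw [e2] at h2
  exact hab ((tendsto_nhds_unique h1 tendsto_const_nhds).symm.trans
    (tendsto_nhds_unique h2 tendsto_const_nhds))

lemma alt_mem {a b : ℂ} {S : Set ℂ} (ha : a ∈ S) (hb : b ∈ S) (k : ℕ) : alt a b k ∈ S := by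
  unfold alt; split_ifs <;> assumption

/-- **The iteration need not converge.** There is a differentiable closed convex curve, an inscribed
triangle and an admissible choice of the maximisers such that none of the three sequences of vertices
converges. -/
theorem result : ∃ K : Set ℂ, IsSmoothBody K ∧ ∃ X Y Z : ℕ → ℂ, IsIteration (frontier K) X Y Z ∧
    (¬ ∃ L, Tendsto X atTop (𝓝 L)) ∧ (¬ ∃ L, Tendsto Y atTop (𝓝 L)) ∧
    (¬ ∃ L, Tendsto Z atTop (𝓝 L)) := by
  refine ⟨K, isSmoothBody_K, alt A1 B1, alt B2 A2, alt A0 B0, ?_, ?_, ?_, ?_⟩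
  · refine ⟨?_, alt_mem A1_mem B1_mem, alt_mem B2_mem A2_mem, alt_mem A0_mem B0_mem, ?_, ?_, ?_⟩
    · have h0 : (![alt A1 B1 0, alt B2 A2 0, alt A0 B0 0] : Fin 3 → ℂ) = ![A1, B2, A0] := by
        simp [alt]
      rw [h0, affineIndependent_iff_not_collinear_set]
      intro hcol
      rw [collinear_iff_of_mem (p₀ := A1) (by simp)] at hcol
      obtain ⟨v, hv⟩ := hcol
      obtain ⟨r1, h1⟩ := hv B2 (by simp)
      obtain ⟨r2, h2⟩ := hv A0 (by simp)
      have h1r := congrArg Complex.re h1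
      have h1i := congrArg Complex.im h1
      have h2r := congrArg Complex.re h2
      have h2i := congrArg Complex.im h2
      simp [A1, B2, A0] at h1r h1i h2r h2i
      have s2 := sqrt3_gt
      have hr1 : r1 * v.re = 24 * √3 - 10 := by linarith
      have hi1 : r1 * v.im = 0 := by
        rcases h1i with h | h <;> simp [h]
      have hr2 : r2 * v.re = 12 * √3 - 15 := by linarith
      have hi2 : r2 * v.im = 36 + 5 * √3 := by linarith
      have h5 : (r1 * v.re) * (r2 * v.im) = (r1 * v.im) * (r2 * v.re) := by ring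
      rw [hr1, hi1, hr2, hi2, zero_mul] at h5
      nlinarith
    · intro k P hP
      rcases Nat.even_or_odd k with hk | hk
      · have hk1 : ¬ Even (k + 1) := by rw [Nat.not_even_iff_odd]; exact hk.add_one
        have := best1 P hP
        simp only [perimeter, alt, hk, hk1, if_true, if_false]
        rw [dist_comm B2 P, dist_comm B2 B0]
        linarith
      · have hk1 : Even (k + 1) := hk.add_one
        have hk0 : ¬ Even k := by rwa [Nat.not_even_iff_odd]
        have := best4 P hP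
        simp only [perimeter, alt, hk0, hk1, if_true, if_false]
        rw [dist_comm A2 P, dist_comm A2 A0]
        linarith
    · intro k P hP
      rcases Nat.even_or_odd k with hk | hk
      · have hk1 : ¬ Even (k + 1) := by rw [Nat.not_even_iff_odd]; exact hk.add_one
        have := best2 P hP
        simp only [perimeter, alt, hk, hk1, if_true, if_false]
        rw [dist_comm A1 P, dist_comm A1 A2]
        linarith
      · have hk1 : Even (k + 1) := hk.add_one
        have hk0 : ¬ Even k := by rwa [Nat.not_even_iff_odd]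
        have := best5 P hP
        simp only [perimeter, alt, hk0, hk1, if_true, if_false]
        rw [dist_comm B1 P, dist_comm B1 B2]
        linarith
    · intro k P hP
      rcases Nat.even_or_odd k with hk | hk
      · have hk1 : ¬ Even (k + 1) := by rw [Nat.not_even_iff_odd]; exact hk.add_one
        have := best3 P hP
        simp only [perimeter, alt, hk1, if_false]
        rw [dist_comm B0 P, dist_comm B0 B1]
        linarith
      · have hk1 : Even (k + 1) := hk.add_one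
        have := best6 P hP
        simp only [perimeter, alt, hk1, if_true]
        rw [dist_comm A0 P, dist_comm A0 A1]
        linarith
  · apply alt_not_tendsto
    intro h
    have := congrArg Complex.re h
    simp [A1, B1] at this
    linarith
  · apply alt_not_tendsto
    intro h
    have := congrArg Complex.re h
    simp [A2, B2] at this
    linarith
  · apply alt_not_tendsto
    intro h
    have := congrArg Complex.re h
    simp [A0, B0] at this
    linarith

end Pool.Agent.Results.MP_26b77b_gt.NoConvergence
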